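import Mathlib
import Pool.Agent.Lib.MP_cf5e8f_an.StateR

/-!
Univalent functions with absolutely convergent power series, arbitrarily close to the identity in
the norm of absolutely convergent series, whose boundary curve has positive area.
-/

set_option autoImplicit false

open MeasureTheory

namespace Pool.Agent.Results.MP_cf5e8f_an.SmallCoefficients

open Pool.Agent.Lib.MP_cf5e8f_an

theorem result :
    ∀ δ : ℝ, 0 < δ → ∃ (f : ℂ → ℂ) (a : ℕ → ℂ),
      DifferentiableOn ℂ f (Metric.ball 0 1) ∧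
      ContinuousOn f (Metric.closedBall 0 1) ∧
      Set.InjOn f (Metric.ball 0 1) ∧
      f 0 = 0 ∧ deriv f 0 = 1 ∧
      a 0 = 0 ∧ a 1 = 1 ∧
      Summable (fun n => ‖a n‖) ∧
      (∑' n, ‖a (n + 2)‖) < δ ∧
      (∀ z ∈ Metric.closedBall (0 : ℂ) 1, HasSum (fun n => a n * z ^ n) (f z)) ∧
      0 < volume (f '' Metric.sphere (0 : ℂ) 1) ∧
      0 < volume ((fun t : ℝ => f (Complex.exp (t * Complex.I))) '' Set.Icc 0 (2 * Real.pi)) := by
  intro δ hδ
  have hcc : 0 < 1 - cc := by linarith [cc_lt_one]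
  obtain ⟨ρ, hρ0, hρ1⟩ : ∃ ρ : ℝ, 0 < ρ ∧ 3 / 2 * (ρ * (2 * (1 - cc)⁻¹)) < δ := by
    refine ⟨δ / (6 * (1 - cc)⁻¹), by positivity, ?_⟩
    have h1 : 0 < (1 - cc)⁻¹ := by positivity
    have h2 : 3 / 2 * (δ / (6 * (1 - cc)⁻¹) * (2 * (1 - cc)⁻¹)) = δ / 2 := by
      field_simp
      ring
    rw [h2]; linarith
  have hsum : HasSum (fun j : ℕ => 2 * (ρ * cc ^ j)) (ρ * (2 * (1 - cc)⁻¹)) := by
    have h1 := (hasSum_geometric_of_lt_one cc_pos.le cc_lt_one).mul_left (2 * ρ)
    have e : ρ * (2 * (1 - cc)⁻¹) = 2 * ρ * (1 - cc)⁻¹ := by ring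
    rw [e]
    have e2 : (fun j : ℕ => 2 * (ρ * cc ^ j)) = fun j => 2 * ρ * cc ^ j := by funext j; ring
    rw [e2]
    exact h1
  obtain ⟨f, a, h1, h2, h3, h4, h5, h6, h7, h8, h9, h10, h11⟩ :=
    assembleR (fun j => (SQR hρ0 j).F) (DQR hρ0) (fun j => 2 * (ρ * cc ^ j))
      (fun j => 4 * (ρ ^ 2 * (1 / 2) ^ j)) (fun j => (SQR hρ0 j).K) (ρ ^ 2 / 2)
      (ρ * (2 * (1 - cc)⁻¹)) (by positivity)
      (fun j => (SQR_rel hρ0 j).sm) (fun j => (SQR_rel hρ0 j).le) hsum.summable hsum.tsum_eq.le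
      (fun z => rfl) (fun j => (SQR_rel hρ0 j).hs) (fun j => FR_diff (SQR hρ0 j))
      (fun j => FR_inj (SQR hρ0 j)) (fun j => (SQR_rel hρ0 j).d0) (fun j => (SQR_rel hρ0 j).d1)
      (fun j => KR_compact (SQR hρ0 j)) (fun j => (SQR_rel hρ0 j).sub)
      (fun j => KR_volume (SQR hρ0 j)) (fun j x hx => KR_close (SQR hρ0 j) hx) (by
        have h := ((tendsto_pow_atTop_nhds_zero_of_lt_one (show (0 : ℝ) ≤ 1 / 2 by norm_num)
          (show (1 : ℝ) / 2 < 1 by norm_num)).const_mul (ρ ^ 2)).const_mul 4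
        rw [mul_zero, mul_zero] at h
        exact h)
  refine ⟨f, a, h1, h2, h3, h4, h5.deriv, h6, h7, h8, lt_of_le_of_lt h9 hρ1, h10, h11, ?_⟩
  have hset : (fun t : ℝ => f (Complex.exp (t * Complex.I))) '' Set.Icc 0 (2 * Real.pi) =
      f '' Metric.sphere (0 : ℂ) 1 := by
    ext w
    constructor
    · rintro ⟨t, -, rfl⟩
      exact ⟨_, by simp [Complex.norm_exp_ofReal_mul_I], rfl⟩
    · rintro ⟨z, hz, rfl⟩
      have hz' : ‖z‖ = 1 := by simpa using hz
      have hz1 : z = Complex.exp (Complex.arg z * Complex.I) := by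
        have := Complex.norm_mul_exp_arg_mul_I z
        rw [hz', Complex.ofReal_one, one_mul] at this
        exact this.symm
      by_cases h0 : 0 ≤ Complex.arg z
      · refine ⟨Complex.arg z, ⟨h0, ?_⟩, ?_⟩
        · have := Complex.arg_le_pi z
          linarith [Real.pi_pos]
        · simp only
          rw [← hz1]
      · push Not at h0
        refine ⟨Complex.arg z + 2 * Real.pi, ⟨?_, by linarith⟩, ?_⟩
        · have := Complex.neg_pi_lt_arg z
          linarith [Real.pi_pos]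
        · simp only
          congr 1
          rw [hz1]
          conv_rhs => rw [← mul_one (Complex.exp _), ← Complex.exp_two_pi_mul_I, ← Complex.exp_add]
          rw [← hz1]
          congr 1
          push_cast
          ring
  rw [hset]
  exact h11

end Pool.Agent.Results.MP_cf5e8f_an.SmallCoefficients
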